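import Pool.Agent.H76.SW.T

namespace Pool.Agent.H5.SW

open Relation Pool.Agent.H76.SW

lemma SB_succ_ge (k q y : ℕ) : SB k q y ≤ SB k q (y + 1) := by
  show SB k q y ≤ WW q + 1 + bsz (NB (y + 3) (k + 1) q * (k + 1)) q (y + 1) + (y + 1) * SB k q y
  nlinarith [Nat.zero_le (WW q), Nat.zero_le (bsz (NB (y + 3) (k + 1) q * (k + 1)) q (y + 1)),
    Nat.zero_le (y * SB k q y)]

lemma SN_succ_ge (k q y : ℕ) : SN k q y ≤ SN k q (y + 1) := by
  show SN k q y ≤ WN q + NB (y + 3) (k + 1) q * (k + 1) + (y + 1) * SN k q y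
  nlinarith [Nat.zero_le (WN q), Nat.zero_le (NB (y + 3) (k + 1) q * (k + 1)),
    Nat.zero_le (y * SN k q y)]

lemma SB_mono (k q : ℕ) : Monotone (SB k q) := monotone_nat_of_le_succ (SB_succ_ge k q)

lemma SN_mono (k q : ℕ) : Monotone (SN k q) := monotone_nat_of_le_succ (SN_succ_ge k q)

lemma SB_ge (k q y : ℕ) : 3 ≤ SB k q y := SB_mono k q (Nat.zero_le y)

lemma SN_ge (k q y : ℕ) : 2 ≤ SN k q y := SN_mono k q (Nat.zero_le y)

lemma bsz_mono (n q : ℕ) {w w' : ℕ} (h : w ≤ w') : bsz n q w ≤ bsz n q w' := by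
  unfold bsz; omega

theorem pf_A5 (h1 : U_s4_child) (h2 : U_a0_mono) (h3 : U_a1_flat) (h4 : U_a4_trivial)
    (h5 : U_q5_unfold) : U_a5_main := by
  intro A P Q _ k hk gs hs tr hwr L _ T hT ι ho lab
  obtain ⟨y, hy⟩ : ∃ y, Fintype.card L = y := ⟨_, rfl⟩
  rw [hy]
  induction y using Nat.strong_induction_on generalizing L T with
  | _ y ih =>
  rcases y with _ | y
  · have hL : IsEmpty L := Fintype.card_eq_zero_iff.mp hy
    obtain ⟨δ, hδ⟩ := h4 k hk gs tr (fun a => ι (lab a)) (fun c => ι (T.pt c))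
      (fun a => (hL.false a).elim)
    exact ⟨δ, hδ⟩
  · have hL : Nonempty L := Fintype.card_pos_iff.mp (by omega)
    obtain ⟨T', ι', lab', hT', ho', hl, hbr, hw⟩ := hwr L T hT ι ho lab
    have key : ∃ δ' : RQ A, Good gs tr k
        (1 + bsz (NB (y + 3) (k + 1) (Fintype.card Q) * (k + 1)) (Fintype.card Q) (y + 1) +
          (y + 1) * SB k (Fintype.card Q) y)
        (NB (y + 3) (k + 1) (Fintype.card Q) * (k + 1) + (y + 1) * SN k (Fintype.card Q) y)
        (fun a => ι (lab a)) (fun c => ι' (T'.pt c)) δ' := by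
      cases T' with
      | edge a0 =>
        obtain ⟨δ, hδ⟩ := h4 k hk gs tr (fun a => ι (lab a)) (fun c => ι' ((Term.edge a0).pt c))
          (fun a => ⟨lab' a, (hl a).symm⟩)
        refine ⟨δ, h2 gs tr k 3 2 _ _ ?_ ?_ _ _ δ hδ⟩
        · have := SB_ge k (Fintype.card Q) y
          nlinarith [Nat.zero_le (y * SB k (Fintype.card Q) y)]
        · have := SN_ge k (Fintype.card Q) y
          nlinarith [Nat.zero_le (y * SN k (Fintype.card Q) y)]
      | node n m src tgt ch p q =>
        obtain ⟨w, b, sub, Fb, l1, l2, pv, lv, hwc, hbs, hbn, htw, hsim, hsub, hbf, -, hμ, hmain⟩ :=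
          h3 k gs hs tr hT'.1 ho' L lab' (SB k (Fintype.card Q) y) (SN k (Fintype.card Q) y) (by
            intro i hi
            obtain ⟨a0, ha0⟩ := hbr i
            classical
            have hc : Fintype.card {a : L // ∃ x, lab' a = Sum.inr ⟨i, x⟩} < y + 1 := by
              rw [← hy]
              exact Fintype.card_subtype_lt (x := a0) (fun ⟨x, hx⟩ => ha0 x hx)
            obtain ⟨δ, hδ⟩ := ih _ hc {a : L // ∃ x, lab' a = Sum.inr ⟨i, x⟩} (ch i)
              (hT'.2 i) (fun x => ι' (Sum.inr ⟨i, x⟩)) (h1 gs ho' i)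
              (fun a => a.2.choose) rfl
            refine ⟨δ, ?_⟩
            have e : (fun a : {a : L // ∃ x, lab' a = Sum.inr ⟨i, x⟩} => ι' (lab' a.1)) =
                fun a => ι' (Sum.inr ⟨i, a.2.choose⟩) := by
              funext a
              rw [← a.2.choose_spec]
            rw [e]
            exact h2 gs tr k _ _ _ _ (SB_mono k _ (by omega)) (SN_mono k _ (by omega)) _ _ δ hδ)
        rw [hy] at hwc hbs hbn
        refine ⟨RQ.cq w b sub (pv false) (pv true), ⟨htw, fun j => (hsub j).1⟩,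
          ⟨hsim, fun j => (hsub j).2.1⟩, ?_, ?_, ?_, ?_⟩
        · have hb : b.size ≤ bsz (NB (y + 3) (k + 1) (Fintype.card Q) * (k + 1))
              (Fintype.card Q) (y + 1) := hbs.trans (bsz_mono _ _ hwc)
          have hsum : ∑ j, (sub j).size ≤ (y + 1) * SB k (Fintype.card Q) y := by
            calc ∑ j, (sub j).size ≤ ∑ _j : Fin w, SB k (Fintype.card Q) y :=
                  Finset.sum_le_sum fun j _ => (hsub j).2.2.1
              _ = w * SB k (Fintype.card Q) y := by simp
              _ ≤ (y + 1) * SB k (Fintype.card Q) y := Nat.mul_le_mul_right _ hwc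
          show 1 + b.size + ∑ j, (sub j).size ≤ _
          omega
        · refine (h5 tr b Fb l1 l2 hbf sub (SN k (Fintype.card Q) y) (fun j => (hsub j).2.2.2) _
            ?_).1 _ _
          have : w * SN k (Fintype.card Q) y ≤ (y + 1) * SN k (Fintype.card Q) y :=
            Nat.mul_le_mul_right _ hwc
          have h3' : b.n ≤ NB (y + 3) (k + 1) (Fintype.card Q) * (k + 1) := hbn
          omega
        · obtain ⟨μ, hh, hp, -⟩ := hμ
          exact ⟨μ, hh, hp false, hp true⟩
        · intro V E h hsat hrp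
          obtain ⟨μ, hh, hp, hq⟩ := hsat
          have e : (fun c => μ (pv c)) = h := by
            funext c; cases c
            · exact hp
            · exact hq
          obtain ⟨ν, hν, -⟩ := (hmain V E μ hh).2 (by rw [e]; exact hrp)
          refine ⟨ν, ?_⟩
          rw [e] at hν
          have e2 : (fun a => ι (lab a)) = fun a => ι' (lab' a) := by
            funext a; exact (hl a).symm
          rw [e2]
          exact hν
    obtain ⟨δ', hδ'⟩ := key
    obtain ⟨δ, hδ⟩ := hw _ _ δ' hδ'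
    refine ⟨δ, ?_⟩
    have e1 : SB k (Fintype.card Q) (y + 1) = WW (Fintype.card Q) +
        (1 + bsz (NB (y + 3) (k + 1) (Fintype.card Q) * (k + 1)) (Fintype.card Q) (y + 1) +
          (y + 1) * SB k (Fintype.card Q) y) := by
      show WW (Fintype.card Q) + 1 + bsz (NB (y + 3) (k + 1) (Fintype.card Q) * (k + 1))
        (Fintype.card Q) (y + 1) + (y + 1) * SB k (Fintype.card Q) y = _
      omega
    have e2 : SN k (Fintype.card Q) (y + 1) = WN (Fintype.card Q) +
        (NB (y + 3) (k + 1) (Fintype.card Q) * (k + 1) + (y + 1) * SN k (Fintype.card Q) y) := by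
      show WN (Fintype.card Q) + NB (y + 3) (k + 1) (Fintype.card Q) * (k + 1) +
        (y + 1) * SN k (Fintype.card Q) y = _
      omega
    rw [e1, e2]
    exact hδ

end Pool.Agent.H5.SW
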